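import Pool.Agent.Lib.helper3.KBridge

namespace Pool.Agent.Results.MP_a30514_an.NotLeft

open Pool.Agent.Lib.helper3.KS

theorem result : ∃ E : Ban, ¬ ProjR (reg (K E)) := not_left

end Pool.Agent.Results.MP_a30514_an.NotLeft
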